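import Pool.Agent.Helper84.BT.Goals

/-!
# Packet BT-EVN (MP_57df85_nt): descent
-/

set_option autoImplicit false

namespace Pool.Agent.Helper89.BT.EVN

open Pool.Agent.Helper84.BT

theorem core (q : ℤ) (hq : 3 ≤ q) :
    ∀ (n : ℕ) (X z : ℤ), z.natAbs = n → (q - 1) * X ^ 2 ≠ q * z ^ 2 + (q - 2) := by
  intro n
  induction n using Nat.strong_induction_on with
  | _ n ih =>
    intro X' z' hz' heq'
    obtain ⟨X, hX0, hX⟩ : ∃ X : ℤ, 0 ≤ X ∧ X ^ 2 = X' ^ 2 := ⟨|X'|, abs_nonneg _, sq_abs _⟩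
    obtain ⟨z, hz0, hz, hzn⟩ : ∃ z : ℤ, 0 ≤ z ∧ z ^ 2 = z' ^ 2 ∧ z.natAbs = n :=
      ⟨|z'|, abs_nonneg _, sq_abs _, by rw [Int.natAbs_abs, hz']⟩
    have heq : (q - 1) * X ^ 2 = q * z ^ 2 + (q - 2) := by rw [hX, hz, heq']
    have hz1 : 1 ≤ z := by
      by_contra h
      have h0 : z = 0 := by omega
      subst h0
      rcases eq_or_lt_of_le hX0 with h1 | h1
      · rw [← h1] at heq
        linarith
      · have h2 : 1 ≤ X ^ 2 := by nlinarith
        nlinarith
    have he : z + 1 ≤ X := by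
      by_contra h
      have h1 : X ≤ z := by omega
      have h2 : X ^ 2 ≤ z ^ 2 := by nlinarith
      nlinarith [sq_nonneg z]
    obtain ⟨e, rfl⟩ : ∃ e, X = z + e := ⟨X - z, by ring⟩
    have he1 : 1 ≤ e := by linarith
    have hee : 1 ≤ e ^ 2 := by nlinarith
    have hf2 : (z - (q - 1) * e) ^ 2 = q * (q - 1) * e ^ 2 - (q - 2) := by linear_combination -heq
    have hf3 : ((q - 1) * e) ^ 2 < (z - (q - 1) * e) ^ 2 := by
      rw [hf2]
      nlinarith
    have hpe : 0 < (q - 1) * e := by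
      apply mul_pos
      · linarith
      · linarith
    have hf4 : (q - 1) * e ≤ z - (q - 1) * e := by
      by_contra h
      have h1 : z - (q - 1) * e < (q - 1) * e := by linarith
      have h2 : z - (q - 1) * e ≤ -((q - 1) * e) := by
        by_contra h3
        have h4 : -((q - 1) * e) < z - (q - 1) * e := by linarith
        have h5 := abs_lt.2 ⟨h4, h1⟩
        have h6 := sq_lt_sq' h4 h1
        linarith
      linarith
    have hlt : (z - 2 * (q - 1) * e).natAbs < n := by
      rw [← hzn]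
      have h1 : 0 ≤ z - 2 * (q - 1) * e := by linarith
      have h2 : z - 2 * (q - 1) * e < z := by linarith
      omega
    refine ih _ hlt (e - (z - 2 * (q - 1) * e)) (z - 2 * (q - 1) * e) rfl ?_
    linear_combination heq

theorem t : S_EVN := fun q X z hq ↦ core q hq _ X z rfl

end Pool.Agent.Helper89.BT.EVN
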